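import Pool.Agent.Q124.Surv.Two

/-!
# A vertex-transitive graph of quadratic growth whose survival number is two

The vertices are the points of `ℤ × ℤ` in two layers.  In the first layer the points at most two
columns and at most one row away are adjacent, in the second layer those at most one column and at
most two rows away, and the two copies of a point are adjacent.  The graph is vertex-transitive: the
exchange of the coordinates and of the layers is an automorphism.

The site `(0, 0)` of the first layer has a finite cell if there are the sites `(n, 0)` and `(-n, 0)`
of the second layer, `n ≥ 16`: in the nearly horizontal and in the diagonal directions one of the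
outer sites is closer because of its position, and in the nearly vertical directions both are closer
because vertical moves are fast in their layer and the middle site has to change the layer.
-/

namespace Pool.Agent.Results.MP_20f07a_co.QuadraticGrowth

open Q124.Surv

/-- `G` has linear growth: the size of the balls is bounded by a linear function of the radius. -/
def LinearGrowth {V : Type*} (G : SimpleGraph V) : Prop :=
  ∃ C : ℕ, ∀ (v : V) (r : ℕ), {u | G.dist u v ≤ r}.ncard ≤ C * (r + 1)

/-- **There is an infinite, connected, locally finite, vertex-transitive graph with survival number
`2` whose growth is at least quadratic, and so not linear.** -/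
theorem result : ∃ (V : Type) (G : SimpleGraph V), Infinite V ∧ G.Connected ∧ LocFinite G ∧
    VertexTransitive G ∧ survival G = 2 ∧ (∀ (v : V) (r : ℕ), r ^ 2 ≤ {u | G.dist u v ≤ r}.ncard) ∧
    ¬ LinearGrowth G := by
  refine ⟨PV, lay, inferInstance, lay_connected, lay_locFinite, lay_transitive, lay_survival,
    growth, ?_⟩
  rintro ⟨C, hC⟩
  have h1 := growth mid (2 * C + 2)
  have h2 := hC mid (2 * C + 2)
  have h3 := h1.trans h2
  nlinarith

end Pool.Agent.Results.MP_20f07a_co.QuadraticGrowth
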